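import Pool.Agent.Helper93.LCH.Stmts
import Pool.Agent.Helper93.LCH.Basic2

/-!
Row CST of the chain criterion (MP_b555a2_al, helper93), typed by helper27.
-/

namespace LCH27

open LCH

universe u v w

set_option linter.unusedSectionVars false

variable {K : Type u} {G : Type v} [Field K] [Group G]

theorem hom_conj_iff {χ : G → ℝ} {t : G} {e : Ex K G} {r : ℝ} (h : (e.conj t).Hom χ r) :
    e.Hom (fun g => χ (t * g * t⁻¹)) r := by
  induction e generalizing r with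
  | mono c g => exact h
  | add a b iha ihb => exact ⟨iha h.1, ihb h.2⟩
  | mul a b iha ihb =>
    obtain ⟨s, t, h1, h2, h3⟩ := h
    exact ⟨s, t, h1, iha h2, ihb h3⟩
  | inv a iha => exact iha h

theorem ischar_comap {M : Subgroup G} {χ : G → ℝ} (hχ : IsChar M χ) (t : G) :
    IsChar (M.comap (MulAut.conj t).toMonoidHom) (fun g => χ (t * g * t⁻¹)) := by
  intro g hg h hh
  have hg' : t * g * t⁻¹ ∈ M := hg
  have hh' : t * h * t⁻¹ ∈ M := hh
  have e : t * (g * h) * t⁻¹ = (t * g * t⁻¹) * (t * h * t⁻¹) := by group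
  change χ (t * (g * h) * t⁻¹) = _
  rw [e]
  exact hχ _ hg' _ hh'

theorem conj_case {M : Subgroup G} {χ : G → ℝ} (hχ : IsChar M χ) {b : Ex K G} {t : G} {r : ℝ}
    (ih : ∀ (M : Subgroup G) (χ : G → ℝ) (r : ℝ), IsChar M χ → (∀ g ∈ b.supp, g ∈ M) →
      b.Hom χ r → r = 0 ∧ ∀ g ∈ b.supp, χ g = 0)
    (h : ∀ g ∈ (b.conj t).supp, g ∈ M) (h' : (b.conj t).Hom χ r) :
    r = 0 ∧ ∀ g ∈ (b.conj t).supp, χ g = 0 := by
  have h1 := ih (M.comap (MulAut.conj t).toMonoidHom) (fun g => χ (t * g * t⁻¹)) r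
    (ischar_comap hχ t)
    (by
      intro g hg
      change t * g * t⁻¹ ∈ M
      apply h
      rw [supp_conj]
      have e : t⁻¹ * (t * g * t⁻¹) * t = g := by group
      rw [e]
      exact hg)
    (hom_conj_iff h')
  refine ⟨h1.1, ?_⟩
  intro g hg
  rw [supp_conj] at hg
  have h2 := h1.2 _ hg
  have e : t * (t⁻¹ * g * t) * t⁻¹ = g := by group
  change χ (t * (t⁻¹ * g * t) * t⁻¹) = 0 at h2
  rw [e] at h2
  exact h2

/-- `nrm_hom` for characters that are only defined on the support of the normalised expression -/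
theorem nrm_hom' (e : Ex K G) : ∀ (M : Subgroup G) (χ : G → ℝ) (r : ℝ), IsChar M χ →
    (∀ g ∈ e.nrm.supp, g ∈ M) → e.nrm.Hom χ r → r = 0 ∧ ∀ g ∈ e.nrm.supp, χ g = 0 := by
  induction e with
  | mono c g =>
    intro M χ r hχ _ h'
    have h1 : χ 1 = r := h'
    rw [ischar_one hχ] at h1
    refine ⟨h1.symm, ?_⟩
    intro g' hg'
    have h2 : g' = 1 := hg'
    rw [h2]; exact ischar_one hχ
  | add a b iha ihb =>
    intro M χ r hχ h h'
    have ha : ∀ g ∈ a.nrm.supp, g ∈ M := fun g hg => h g (Or.inl hg)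
    have hb : ∀ g ∈ b.nrm.supp, g ∈ M := fun g hg => h g (Or.inr (Or.inl hg))
    obtain ⟨h1, s, t, h2, h3, h4⟩ := h'
    obtain ⟨hr, h5⟩ := iha M χ _ hχ ha h1
    obtain ⟨hs, h6⟩ := ihb M χ _ hχ hb h3
    have h7 : χ (b.tt * (a.tt)⁻¹) = t := h4
    refine ⟨hr, ?_⟩
    intro g hg
    rcases hg with hg | hg | hg
    · exact h5 g hg
    · exact h6 g hg
    · have h8 : g = b.tt * (a.tt)⁻¹ := hg
      rw [h8, h7]
      linarith
  | mul a b iha ihb =>
    intro M χ r hχ h h'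
    obtain ⟨s, t, h1, h2, h3⟩ := h'
    obtain ⟨hs, h5⟩ := iha M χ _ hχ (fun g hg => h g (Or.inl hg)) h2
    obtain ⟨ht, h6⟩ := conj_case hχ ihb (fun g hg => h g (Or.inr hg)) h3
    refine ⟨by linarith, ?_⟩
    intro g hg
    rcases hg with hg | hg
    · exact h5 g hg
    · exact h6 g hg
  | inv a iha =>
    intro M χ r hχ h h'
    have h1 : (a.nrm.conj (a.tt)⁻¹).Hom χ (-r) := h'
    obtain ⟨hr, h5⟩ := conj_case hχ iha h h1
    refine ⟨by linarith, ?_⟩
    intro g hg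
    exact h5 g hg

theorem char_zero_closure {S : Set G} {χ : G → ℝ} (hχ : IsChar (Subgroup.closure S) χ)
    (h : ∀ g ∈ S, χ g = 0) : ∀ g ∈ Subgroup.closure S, χ g = 0 := by
  intro g hg
  induction hg using Subgroup.closure_induction with
  | mem x hx => exact h x hx
  | one => exact ischar_one hχ
  | mul x y hx hy hx' hy' => rw [hχ x hx y hy, hx', hy', add_zero]
  | inv x hx hx' => rw [ischar_inv hχ hx, hx', neg_zero]

theorem st_CST (hGLB : ST_GLB.{v}) (hAMB : ST_AMB.{u, v}) (hSCA : ST_SCA.{u, v})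
    (hRKA : ST_RKA.{u, v}) (hRKB : ST_RKB.{u, v}) (hUEL : ST_UEL.{u, v, w})
    (hLFX : ST_LFX.{u, v, w}) (hLFC : ST_LFC.{u, v}) (hCE : ST_CE.{v}) : ST_CST.{u, v, w} := by
  intro K _ G _ T _ hLI X hC κ hI e hX hmeas
  apply cons_of_nrm
  have hX' : ∀ g ∈ e.nrm.supp, g ∈ X := supp_nrm_mem hX
  have hm : e.nrm.meas T = κ := by rw [meas_nrm]; exact hmeas
  have hmle : mle (e.nrm.meas T) κ := Or.inl hm
  have hAdm : e.nrm.Adm := adm_of_IH hI e.nrm hX' hmle
  obtain ⟨L, hLdef⟩ : ∃ L : Subgroup G, L = Subgroup.closure e.nrm.supp := ⟨_, rfl⟩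
  have hL : ∀ g ∈ e.nrm.supp, g ∈ L := by
    intro g hg
    rw [hLdef]
    exact Subgroup.subset_closure hg
  have hLX : L ≤ X := by
    rw [hLdef, Subgroup.closure_le]
    exact hX'
  have hFG : L.FG := by
    rw [Subgroup.fg_iff]
    exact ⟨e.nrm.supp, hLdef.symm, supp_finite _⟩
  have hiff : ∀ s : Sit G, (∀ g ∈ e.nrm.supp, g ∈ s.M) → L ≤ s.M := by
    intro s hs
    rw [hLdef, Subgroup.closure_le]
    exact hs
  have key : ((∀ s : Sit G, L ≤ s.M → e.nrm.ev s = 0) ∨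
      (∀ s : Sit G, L ≤ s.M → VC s (e.nrm.ev s))) → e.nrm.Cons := by
    rintro (h | h)
    · left
      intro s hs
      exact h s (hiff s hs)
    · right
      intro s hs
      exact h s (hiff s hs)
  by_cases hne : L = ⊥
  · apply hSCA K G
    intro g hg
    have := hL g hg
    rw [hne, Subgroup.mem_bot] at this
    exact this
  apply key
  by_cases hR : Rk1 L
  · by_cases hO : OreK K L
    · exact hRKA K G L hO e.nrm hL
    · exact hRKB K G hLI L hFG hne hR (hC L hLX hFG hne hR hO) e.nrm hL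
  have hA := hAMB K G L e.nrm hFG hne hL hAdm
  have hloc : ∀ χ ψ : G → ℝ, IsChar L χ → IsChar L ψ → NZ L χ → ∃ ε : ℝ, 0 < ε ∧
      ((∀ t : ℝ, |t| < ε → AA e.nrm L (fun g => χ g + t * ψ g)) ∨
       (∀ t : ℝ, |t| < ε → BB e.nrm L (fun g => χ g + t * ψ g))) := by
    intro χ ψ hχ hψ hnz
    have hU := hUEL K G T hLI X κ hI e.nrm L χ ψ hLX hχ hψ hL hmle
    have hnh : ¬ ∃ r, e.nrm.Hom χ r := by
      rintro ⟨r, hr⟩
      have h0 := (nrm_hom' e L χ r hχ hL hr).2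
      obtain ⟨g, hg, hg0⟩ := hnz
      apply hg0
      rw [hLdef] at hχ hg
      exact char_zero_closure hχ h0 g hg
    have hF := hLFX K G T X κ hI e.nrm L χ ψ hLX hχ hψ hmle hnh hU
    rcases hLFC K G e.nrm L χ ψ hF with ⟨ε, hε, h⟩ | ⟨ε, r, C, hε, h⟩
    · refine ⟨ε, hε, Or.inl ?_⟩
      intro t ht s f hAt
      exact h ⟨t, s, f, hAt⟩ ht
    · refine ⟨ε, hε, Or.inr ?_⟩
      intro t ht s f hAt
      exact (h ⟨t, s, f, hAt⟩ ht).1
  have hexc : ∀ χ : G → ℝ, IsChar L χ → NZ L χ → ¬ (AA e.nrm L χ ∧ BB e.nrm L χ) := by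
    intro χ hχ hnz hAB
    obtain ⟨s, hs, hsP⟩ := hCE G hLI L χ hχ
    have hAt : At s χ L χ := by
      refine ⟨hs.ge, ?_, hsP, fun _ _ => rfl⟩
      rw [hs]
      exact hχ
    have h1 := hAB.1 s χ hAt
    have h2 := hAB.2 s χ hAt
    exact h2.ne_zero h1
  rcases hGLB G L (AA e.nrm L) (BB e.nrm L) hR hloc hexc with h | h
  · left; exact hA.1 h
  · right; exact hA.2 h

end LCH27
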